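import Pool.Agent.H43.TC.FIN
import Pool.Agent.H59.TE.CIN
import Pool.Agent.H17.TE.CPT
import Pool.Agent.H17.TE.WEX
import Pool.Agent.H40.TE.WDT
import Pool.Agent.H40.TE.RUN
import Pool.Agent.H48.TE.EXB
import Pool.Agent.H48.TE.CYC
import Pool.Agent.H91.TE.HUL
import Pool.Agent.H90.TE.DNS
import Pool.Agent.H42.TE.BOX
import Pool.Agent.H71.TE.ONE

/-!
# Staying probabilities in two-coloured cycles, any number of steps (MP_183c3b_co)
-/

set_option autoImplicit false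

namespace Pool.Agent.Results.MP_183c3b_co.CycleAllSteps

open Pool.Agent.H43.TC

/-- The achievable region for `k = 1` and every `t ≥ 1`. -/
theorem result (t : ℕ) (ht : 1 ≤ t) : region 1 t = convexHull ℝ
    ({p : ℝ × ℝ | p = (1, 1) ∨ ∃ m : ℕ, 1 ≤ m ∧ m ≤ t ∧
        (p = ((1 - 1 / m : ℝ), (pathWalks m t / (m * 2 ^ t) : ℝ)) ∨
          p = ((pathWalks m t / (m * 2 ^ t) : ℝ), (1 - 1 / m : ℝ)))}) := by
  have hWDT : T_WDT := Pool.Agent.H40.TE.wdt Pool.Agent.H17.TE.wex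
  have hPWX : T_PWX := Pool.Agent.H40.TE.pwx Pool.Agent.H17.TE.wex
  have hCIN : T_CIN := Pool.Agent.H59.TE.cin hWDT Pool.Agent.H40.TE.run
    Pool.Agent.H48.TE.exb hPWX Pool.Agent.H90.TE.dns
  have hHUL : T_HUL := Pool.Agent.H91.TE.hul Pool.Agent.H48.TE.exb hPWX
  have hC : T_CYC := Pool.Agent.H48.TE.cyc hCIN Pool.Agent.H17.TE.cpt hHUL
    Pool.Agent.H42.TE.box Pool.Agent.H71.TE.one sym' cvx'
  rw [hC t ht]
  congr 1
  ext p
  simp only [cyv, Set.mem_union, Set.mem_image, Set.mem_ofPred_eq]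
  constructor
  · rintro ((h | ⟨m, h1, h2, h⟩) | ⟨q, (h | ⟨m, h1, h2, h⟩), rfl⟩)
    · exact Or.inl h
    · exact Or.inr ⟨m, h1, h2, Or.inl h⟩
    · left
      rw [h]
      rfl
    · right
      refine ⟨m, h1, h2, Or.inr ?_⟩
      rw [h]
      rfl
  · rintro (h | ⟨m, h1, h2, h | h⟩)
    · exact Or.inl (Or.inl h)
    · exact Or.inl (Or.inr ⟨m, h1, h2, h⟩)
    · right
      refine ⟨p.swap, Or.inr ⟨m, h1, h2, ?_⟩, Prod.swap_swap p⟩
      rw [h]
      rfl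

end Pool.Agent.Results.MP_183c3b_co.CycleAllSteps
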