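import Pool.Agent.H46.SQ.Final

/-!
For almost all `n`, both summands are large in every representation `n = k + m` with
`p_k ^ 2 - 2` and `p_m ^ 2 - 2` prime (`p_j` the `j`-th prime, `p_1 = 2`).
-/

set_option autoImplicit false

namespace Pool.Agent.Results.MP_04ff0f_nt.LargeSummands

/-- For every `ε > 0` there is `c > 0` such that for all large `N` at most `ε N` of the `n ≤ N`
have a representation `n = k + m` with `k, m > 0`, `p_k ^ 2 - 2` and `p_m ^ 2 - 2` prime and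
`min k m ≤ c log N log log N`. -/
theorem result : ∀ ε : ℝ, 0 < ε → ∃ c : ℝ, 0 < c ∧ ∃ N₀ : ℕ, ∀ N : ℕ, N₀ ≤ N →
    (({n : ℕ | n ≤ N ∧ ∃ k m : ℕ, 0 < k ∧ 0 < m ∧ k + m = n ∧
      Nat.Prime ((Nat.nth Nat.Prime (k - 1)) ^ 2 - 2) ∧
      Nat.Prime ((Nat.nth Nat.Prime (m - 1)) ^ 2 - 2) ∧
      ((min k m : ℕ) : ℝ) ≤ c * Real.log N * Real.log (Real.log N)}.ncard : ℝ)) ≤ ε * N :=
  Pool.Agent.H46.SQ.one

end Pool.Agent.Results.MP_04ff0f_nt.LargeSummands
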